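import Pool.Agent.H84.NT.Targets3

/-!
# MP_57ddd5_pr, module INL: the localised insertion lemma
-/

namespace Pool.Agent.H48.NT

open Pool.Agent.H99.NS Pool.Agent.H22.LPP Pool.Agent.H95.INS Pool.Agent.H84.NT

lemma okH {D : Dat} (h : D.Ok) : 0 ≤ D.H * D.f := by
  have h2 : 0 ≤ sg D.q := by
    unfold sg
    have := h.q1
    exact div_nonneg (Real.sqrt_nonneg _) (by linarith)
  have hB := h.B0
  have hK := h.K0
  have h6 : 0 ≤ sg D.q * D.B ^ 2 := by positivity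
  have h7 : 0 ≤ 3 * D.K * (1 + D.B) := by positivity
  have h1 := h.c1
  exact mul_nonneg (by linarith) h.f0.le

theorem pf_INL (h_CUT : T_CUT) (h_TUB : T_TUB) (h_DET : T_DET) (h_INN : T_INN) (h_LEX : T_LEX)
    (h_LAM : B_LAM) : T_INL := by
  intro D Da z ω ω' o e L
  have Dok := L.rel.okD
  have C := h_TUB D Da z ω ω' o e L
  obtain ⟨c1, c2, c3, c4, c5, c6, c7, c8⟩ := h_CUT D ω ω' Dok
  obtain ⟨-, -, -, -, -, -, c7', -⟩ := h_CUT D ω' ω Dok
  have hHf := okH Dok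
  have hn1 := Dok.n1
  have hre := L.en.re
  have hoe : o.1 ≤ e.1 := reach_le hre
  have hX : D.X ≤ 2 * D.X := by
    have h1 := Dok.X1
    have h2 := Dok.A2
    have h3 := Dok.w1
    have : 0 ≤ 16 * D.A * D.w := by positivity
    linarith
  have hwide : ∀ g, InT D D.X g → InT D (2 * D.X) g :=
    fun g hg r h1 h2 => lt_of_lt_of_le (hg r h1 h2) hX
  -- paths which are near optimal for the cut environment are near optimal
  have hnear : ∀ c g, Near (cutS D ω) o e c g → Near ω o e c g := by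
    rintro c g ⟨h1, h2⟩
    rw [C.te] at h2
    exact ⟨h1, h2.trans (c3 _ _ _)⟩
  have hRR : RR D (cutS D ω) o e := by
    intro g hg _
    have h1 := C.st g (hnear _ _ hg)
    exact ⟨(h1 _ (by linarith) (by linarith)).le, (h1 _ (by linarith) (by linarith)).le⟩
  have hO3 : ∀ γ, Near ω' o e (D.H * D.f / 1000) γ → |(γ (-(256 * D.n)) : ℝ)| ≤ D.B * D.w →
      |(γ (256 * D.n) : ℝ)| ≤ D.B * D.w → InT D (2 * D.X) γ → O3 D (cutS D ω') o e γ :=
    fun γ h1 h2 h3 h4 => ⟨c7' _ _ _ _ h4 h1, h2, h3⟩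
  have hdet : ∀ γ, O3 D (cutS D ω') o e γ → InsC D (cutS D ω) (cutS D ω') o e γ :=
    fun γ h => h_DET D (cutS D ω) (cutS D ω') o e Dok (c5 L.ag) L.en (c6 L.ev) hRR L.o1 L.o2 γ h
  -- the leftmost geodesic of the old environment
  obtain ⟨hG', -⟩ := h_LAM ω' o e hre
  have hI := hdet _ (hO3 (Lam ω' o e) ⟨hG'.1, by rw [hG'.2]; linarith⟩ L.l1 L.l2 L.tu)
  refine ⟨?_, ?_, ?_⟩
  · obtain ⟨hG, hleft⟩ := h_LAM ω o e hre
    have hR : Reach (-(4 * D.n), 0) (4 * D.n, 0) := by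
      constructor
      · simp only [sub_self, abs_zero]
        linarith
      · exact ⟨4 * D.n, by ring⟩
    obtain ⟨Gam, hGam⟩ := h_LEX (cutS D ω) (-(4 * D.n), 0) (4 * D.n, 0) hR
    obtain ⟨h1, h2⟩ := hI.ga Gam hGam
    have hn14 : Near ω o e (14 * D.H * D.f / 1000) (Lam ω o e) := by
      refine ⟨hG.1, ?_⟩
      rw [hG.2]
      nlinarith
    have hT := hwide _ (C.st _ hn14)
    have hL : LGeo (cutS D ω) o e (Lam ω o e) := by
      refine ⟨⟨hG.1, ?_⟩, ?_⟩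
      · rw [c4 _ _ _ (fun r _ _ h3 h4 => hT r h3.le h4), hG.2, C.te]
      · intro g' hg' r hr1 hr2
        refine hleft g' ⟨hg'.1, le_antisymm (le_T ω hoe hg'.1) ?_⟩ r hr1 hr2
        rw [← C.te, ← hg'.2]
        exact c3 _ _ _
    have h3 := h2 _ hL 0 (by linarith) (by linarith)
    rw [h3]
    exact h1 0 (by linarith) (by linarith)
  · intro g g' hg hg'
    have h1 := c7 _ _ _ _ (hwide _ (C.st _ hg)) hg
    have h2 := c7 _ _ _ _ (hwide _ (C.st _ hg')) hg'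
    obtain ⟨⟨r, h3, h4, h5⟩, -⟩ := hI.me g g' h1 h2
    exact ⟨r, by linarith, by linarith, h5⟩
  · intro γ h1 h2 h3 h4
    have hJ := hdet γ (hO3 γ h1 h2 h3 h4)
    obtain ⟨m, m1, m2, m3, -, m5⟩ := h_INN D (cutS D ω) Dok (c6 L.ev)
    obtain ⟨g, g1, g2, g3, -⟩ := hJ.re m m1 m2 m3 m5
    obtain ⟨g4, g5⟩ := hnear _ _ g1
    exact ⟨g, ⟨g4, by nlinarith⟩, g2, g3⟩

end Pool.Agent.H48.NT
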